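import Pool.Agent.Lib.MP_c4e285_co.Ext

/-!
# `B + c + A i` need not contain a Bohr set for any single element `c`

A full negative answer to Q1: in the countable group `⨁ ℤ/2` there are `B` with upper Banach
density arbitrarily close to `1/2` and a partition into two cells `A 0, A 1` such that
`B + c + A i` contains no Bohr set, for every element `c` of the group and every `i`.
-/

set_option autoImplicit false

namespace Pool.Agent.Results.MP_c4e285_co.NoBohrSetInTranslates

open Filter Topology
open scoped Pointwise symmDiff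

section definitions

variable {G : Type*} [AddCommGroup G]

/-- The Bohr set `{g : |χ_j(g) - 1| < η for all j}` of rank `k` and radius `η`. -/
def bohrSet {k : ℕ} (χ : Fin k → AddChar G Circle) (η : ℝ) : Set G :=
  {g | ∀ j, ‖((χ j g : Circle) : ℂ) - 1‖ < η}

/-- `S` contains a Bohr set (of some rank and some positive radius). -/
def ContainsBohrSet (S : Set G) : Prop :=
  ∃ (k : ℕ) (χ : Fin k → AddChar G Circle) (η : ℝ), 0 < η ∧ bohrSet χ η ⊆ S

open Classical in
/-- Folner sequences: nonempty finite sets with `|(g + F n) ∆ F n| / |F n| → 0` for all `g`. -/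
def IsFolner (F : ℕ → Finset G) : Prop :=
  (∀ n, (F n).Nonempty) ∧
    ∀ g : G, Tendsto (fun n => (((F n).image (fun x => g + x) ∆ F n).card : ℝ) / (F n).card)
      atTop (𝓝 0)

open Classical in
/-- Upper Banach density: supremum over all Folner sequences of the upper density. -/
noncomputable def upperBanachDensity (A : Set G) : ℝ :=
  sSup {d | ∃ F : ℕ → Finset G, IsFolner F ∧
    d = limsup (fun n => (((F n).filter (fun x => x ∈ A)).card : ℝ) / (F n).card) atTop}

end definitions

section density

variable {G : Type*} [AddCommGroup G]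

omit [AddCommGroup G] in
open Classical in
theorem ratio_nonneg (A : Set G) (S : Finset G) :
    0 ≤ ((S.filter (fun x => x ∈ A)).card : ℝ) / S.card := by positivity

omit [AddCommGroup G] in
open Classical in
theorem ratio_le_one (A : Set G) (S : Finset G) :
    ((S.filter (fun x => x ∈ A)).card : ℝ) / S.card ≤ 1 := by
  apply div_le_one_of_le₀
  · exact_mod_cast Finset.card_filter_le _ _
  · positivity

open Classical in
theorem le_density (A : Set G) {F : ℕ → Finset G} (hF : IsFolner F) {a : ℝ}
    (h : ∀ n, a ≤ (((F n).filter (fun x => x ∈ A)).card : ℝ) / (F n).card) :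
    a ≤ upperBanachDensity A := by
  have h1 : a ≤ limsup (fun n => (((F n).filter (fun x => x ∈ A)).card : ℝ) / (F n).card)
      atTop := by
    apply le_limsup_of_frequently_le
    · exact Frequently.of_forall h
    · exact isBoundedUnder_of ⟨1, fun n => ratio_le_one A (F n)⟩
  refine h1.trans (le_csSup ⟨1, ?_⟩ ⟨F, hF, rfl⟩)
  rintro d ⟨F', _, rfl⟩
  apply limsup_le_of_le
  · exact isCoboundedUnder_le_of_le atTop (x := 0) (fun n => ratio_nonneg A (F' n))
  · exact Eventually.of_forall (fun n => ratio_le_one A (F' n))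

open Classical in
theorem density_le_one (A : Set G) : upperBanachDensity A ≤ 1 := by
  apply Real.sSup_le _ zero_le_one
  rintro d ⟨F', _, rfl⟩
  apply limsup_le_of_le
  · exact isCoboundedUnder_le_of_le atTop (x := 0) (fun n => ratio_nonneg A (F' n))
  · exact Eventually.of_forall (fun n => ratio_le_one A (F' n))

open Classical in
theorem isFolner_of_eventually_invariant {F : ℕ → Finset G} (hne : ∀ n, (F n).Nonempty)
    (h : ∀ g : G, ∀ᶠ n in atTop, ∀ x, g + x ∈ F n ↔ x ∈ F n) : IsFolner F := by
  refine ⟨hne, fun g => ?_⟩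
  apply tendsto_const_nhds.congr'
  filter_upwards [h g] with n hn
  have h1 : (F n).image (fun x => g + x) = F n := by
    ext x
    rw [Finset.mem_image]
    constructor
    · rintro ⟨y, hy, rfl⟩
      exact (hn y).2 hy
    · intro hx
      refine ⟨-g + x, ?_, by abel⟩
      rw [← hn, add_neg_cancel_left]
      exact hx
  rw [h1, symmDiff_self, Finset.bot_eq_empty, Finset.card_empty, Nat.cast_zero, zero_div]

open Classical in
theorem density_of_all {F : ℕ → Finset G} (hF : IsFolner F) {A : Set G} (hA : ∀ x, x ∈ A) :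
    upperBanachDensity A = 1 := by
  refine le_antisymm (density_le_one _) (le_density _ hF (fun m => ?_))
  have h0 := Finset.card_pos.2 (hF.1 m)
  rw [one_le_div (by exact_mod_cast h0)]
  norm_cast
  apply Finset.card_le_card
  intro x hx
  rw [Finset.mem_filter]
  exact ⟨hx, hA x⟩

end density

section group

open Pool.Agent.Lib.MP_c4e285_co

theorem w_support (x : F2) : w x.support = x := by
  ext i
  rw [w_apply]
  have key : ∀ a : ZMod 2, a ≠ 0 → 1 = a := by decide
  by_cases h : i ∈ x.support
  · rw [if_pos h]
    exact key _ (Finsupp.mem_support_iff.1 h)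
  · rw [if_neg h]
    exact (Finsupp.notMem_support_iff.1 h).symm

/-- `V N` as a finite set. -/
noncomputable def VF (N : ℕ) : Finset F2 := (Finset.range N).powerset.map ⟨w, w_injective⟩

theorem mem_VF {N : ℕ} {x : F2} : x ∈ VF N ↔ x ∈ V N := by
  simp only [VF, Finset.mem_map, Finset.mem_powerset, Function.Embedding.coeFn_mk]
  constructor
  · rintro ⟨J, hJ, rfl⟩
    exact w_mem_V (fun i hi => Finset.mem_range.1 (hJ hi))
  · intro h
    refine ⟨x.support, fun i hi => ?_, w_support x⟩
    rw [Finset.mem_range]
    by_contra h'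
    exact (Finsupp.mem_support_iff.1 hi) (h i (not_lt.1 h'))

theorem card_VF (N : ℕ) : (VF N).card = 2 ^ N := by
  rw [VF, Finset.card_map, Finset.card_powerset, Finset.card_range]

theorem isFolner_VF {N : ℕ → ℕ} (hN : StrictMono N) : IsFolner (fun m => VF (N m)) := by
  refine isFolner_of_eventually_invariant (fun m => ⟨0, mem_VF.2 (V_zero _)⟩) (fun g => ?_)
  obtain ⟨M, hM⟩ := exists_V g
  filter_upwards [eventually_ge_atTop M] with m hm x
  have hg : g ∈ V (N m) := V_mono (hm.trans (hN.id_le m)) hM
  simp only [mem_VF]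
  constructor
  · intro hx
    have := V_add hg hx
    rwa [← add_assoc, add_self, zero_add] at this
  · exact fun hx => V_add hg hx

end group

/-- **Negative answer to Q1.**  In the countable group `⨁ ℤ/2` (finitely supported functions
`ℕ → ℤ/2`), for each `ε > 0` there are `B` of upper Banach density `> 1/2 - ε` (and `> 0`),
`C` of upper Banach density one (the whole group) and a partition into two cells `A 0, A 1` such
that for every `c ∈ C` and every `i` the set `B + c + A i` contains no Bohr set. -/
theorem result : ∀ ε : ℝ, 0 < ε →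
    ∃ (B C : Set (ℕ →₀ ZMod 2)) (A : Fin 2 → Set (ℕ →₀ ZMod 2)),
      1 / 2 - ε < upperBanachDensity B ∧ 0 < upperBanachDensity B ∧
      C = Set.univ ∧ upperBanachDensity C = 1 ∧
      (∀ x, ∃! i, x ∈ A i) ∧
      ∀ c ∈ C, ∀ i, ¬ ContainsBohrSet (B + {c} + A i) := by
  classical
  intro ε hε
  have hε' : 0 < min (ε / 2) (1 / 4) := by positivity
  obtain ⟨N, B, E, hN, hB, hinv, hhit⟩ :=
    Pool.Agent.Lib.MP_c4e285_co.exists_sets hε'
  have hdens : 1 / 2 - min (ε / 2) (1 / 4) ≤ upperBanachDensity B := by
    refine le_density B (isFolner_VF hN) (fun m => ?_)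
    obtain ⟨S, hS, hSd⟩ := hB m
    refine hSd.trans ?_
    rw [card_VF]
    push_cast
    apply div_le_div_of_nonneg_right _ (by positivity)
    have : S ⊆ (VF (N m)).filter (fun x => x ∈ B) := by
      intro x hx
      rw [Finset.mem_filter, mem_VF]
      exact hS x hx
    exact_mod_cast Finset.card_le_card this
  have hmin1 : min (ε / 2) (1 / 4) ≤ ε / 2 := min_le_left _ _
  have hmin2 : min (ε / 2) (1 / 4) ≤ 1 / 4 := min_le_right _ _
  -- the partition
  let P : Set (ℕ →₀ ZMod 2) := {x | ∃ b ∈ B, ∃ e ∈ E true, x = b + e}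
  refine ⟨B, Set.univ, ![Pᶜ, P], by linarith, by linarith, rfl, ?_, ?_, ?_⟩
  · exact density_of_all (isFolner_VF hN) (fun _ => trivial)
  · intro x
    by_cases hx : x ∈ P
    · refine ⟨1, hx, fun i hi => ?_⟩
      fin_cases i
      · exact absurd hx hi
      · rfl
    · refine ⟨0, hx, fun i hi => ?_⟩
      fin_cases i
      · rfl
      · exact absurd hi hx
  · -- no Bohr set
    have key : ∀ (i : Bool) (A : Set (ℕ →₀ ZMod 2)),
        (∀ e ∈ E i, ∀ b ∈ B, ∀ a ∈ A, e ≠ b + a) → ∀ c, ¬ ContainsBohrSet (B + {c} + A) := by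
      rintro i A hA c ⟨k, χ, η, hη, hsub⟩
      obtain ⟨e, he, hχ⟩ := hhit i c k k le_rfl χ
      have h1 : e + c ∈ bohrSet χ η := by
        intro j
        rw [AddChar.map_add_eq_mul, hχ j, Pool.Agent.Lib.MP_c4e285_co.char_sq]
        simpa using hη
      obtain ⟨y, hy, a, ha, hya⟩ := Set.mem_add.1 (hsub h1)
      obtain ⟨b, hb, c', hc', rfl⟩ := Set.mem_add.1 hy
      rw [Set.mem_singleton_iff] at hc'
      subst hc'
      refine hA e he b hb a ha ?_
      have h2 : e + c' = (b + a) + c' := by rw [← hya]; abel
      exact add_right_cancel h2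
    intro c _ i
    fin_cases i
    · refine key true _ ?_ c
      rintro e he b hb a ha rfl
      refine ha ⟨b, hb, b + a, he, ?_⟩
      rw [← add_assoc, Pool.Agent.Lib.MP_c4e285_co.add_self, zero_add]
    · refine key false _ ?_ c
      rintro e he b hb a ⟨b', hb', e', he', rfl⟩ h
      apply hinv b' hb' b hb e' he' e he
      rw [h]
      calc b' + b = b' + b + (e' + e') := by
            rw [Pool.Agent.Lib.MP_c4e285_co.add_self, add_zero]
        _ = e' + (b + (b' + e')) := by abel

end Pool.Agent.Results.MP_c4e285_co.NoBohrSetInTranslates
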